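import Pool.Agent.Helper17.OD.GoalsGM

/-! Packet ELM: the countable collapse. -/

namespace Pool.Agent.Helper17.OD.PkELM

open Pool.Agent.Helper17.OD Set
open Cardinal hiding univ

theorem leaves_map {f : O → O} (t : T) : (t.map f).leaves = f '' t.leaves := by
  induction t with
  | nat n => simp [Tr.map, Tr.leaves]
  | ord a => simp [Tr.map, Tr.leaves]
  | pr s t ihs iht => simp only [Tr.map, Tr.leaves, ihs, iht, image_union]

theorem thm (h1 : G_HSZ) (h2 : G_COL) (h3 : G_CLA) (h4 : G_CON1) (h5 : G_CON2) : G_ELM := by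
  intro w₀ κ₀ θ hw hk
  let p : T := .pr (.ord w₀) (.ord κ₀)
  let Q : Code → T → Prop := fun _ _ => True
  let A : Set O := Iio 0 ∪ p.leaves
  obtain ⟨hcl, hsub, hbase⟩ := h3 θ Q A
  obtain ⟨γ, f, hγ, hf, hfr⟩ := h2 θ (Hull θ Q A) hsub
  have hrng : ∀ x < γ, f x < θ := fun x hx => hsub (hfr ▸ mem_image_of_mem f hx)
  have hmem : ∀ x < γ, f x ∈ Hull θ Q A := fun x hx => hfr ▸ mem_image_of_mem f hx
  -- trees with leaves in the range are in the closure
  have hT : ∀ e ∈ D (Iio γ), TCl θ Q A (e.map f) := by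
    intro e he
    rw [hcl]
    show (e.map f).leaves ⊆ _
    rw [leaves_map]
    rintro _ ⟨x, hx, rfl⟩
    exact hmem x (he hx)
  have hD : ∀ y, TCl θ Q A y → y ∈ D (f '' Iio γ) := by
    intro y hy
    rw [hfr]
    exact (hcl y).1 hy
  have hin : ∀ b < γ, ∀ e ∈ D (Iio b), ∀ (φ : Code) (y : T), IsW (f b) φ (e.map f) y →
      y ∈ D (f '' Iio γ) := by
    intro b hb e he φ y hy
    refine hD y (TCl.inner (b := f b) (φ := φ) (e := e.map f) (hmem b hb) (hrng b hb)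
      (hT e fun x hx => lt_trans (he hx) hb) ?_ hy)
    show (e.map f).leaves ⊆ _
    rw [leaves_map]
    rintro _ ⟨x, hx, rfl⟩
    exact hf (lt_trans (he hx) hb) hb (he hx)
  have htop : ∀ e ∈ D (Iio γ), ∀ (ψ : Code) (y : T), IsW θ ψ (e.map f) y →
      y ∈ D (f '' Iio γ) := by
    intro e he ψ y hy
    exact hD y (TCl.top (hT e he) trivial hy)
  have hpre : ∀ x ∈ A, x < θ → ∃ y < γ, f y = x := by
    intro x hx hxθ
    have := hbase x hx hxθ
    rw [← hfr] at this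
    obtain ⟨y, hy, hyx⟩ := this
    exact ⟨y, hy, hyx⟩
  obtain ⟨w, hwγ, hfw⟩ := hpre w₀ (Or.inr (Or.inl rfl)) hw
  obtain ⟨κ, hkγ, hfk⟩ := hpre κ₀ (Or.inr (Or.inr rfl)) hk
  refine ⟨w, κ, γ, f, ⟨hf, hrng, ?_, ?_, ⟨hwγ, hfw⟩, ⟨hkγ, hfk⟩⟩, ?_⟩
  · intro c e he
    exact h5 γ θ f (Tr.ofCode c) hf hrng hin (fun e he ψ y _ hy => htop e he ψ y hy) c
      (Or.inl rfl) e he
  · intro b hb e he c
    exact (h4 γ f hf hin).1 b hb e he c
  · have hlt : γ < (ℵ₁ : Cardinal.{1}).ord := by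
      refine h1 ℵ₁ isRegular_aleph_one aleph0_lt_aleph_one θ 0 p Q ?_ γ f hf hfr
      exact lt_of_lt_of_le Ordinal.omega0_pos (by
        rw [← ord_aleph0]; exact ord_le_ord.2 aleph0_lt_aleph_one.le)
    have hc : γ.card < ℵ₁ := lt_ord.1 hlt
    have hc' : γ.card ≤ ℵ₀ := by
      rw [← succ_aleph0] at hc
      exact Order.lt_succ_iff.1 hc
    rw [← le_aleph0_iff_set_countable, mk_Iio_ordinal]
    exact lift_le_aleph0.2 hc'

end Pool.Agent.Helper17.OD.PkELM
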