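import Pool.Agent.Helper17.OD.GoalsCV

/-! Packet LOC: a location exists. -/

namespace Pool.Agent.Helper17.OD.PkLOC

open Pool.Agent.Helper17.OD Set

theorem ofCode_inj {c d : Code} (h : (Tr.ofCode c : T) = Tr.ofCode d) : c = d := by
  induction c generalizing d with
  | nat n =>
    cases d with
    | nat m => simpa [Tr.ofCode, Tr.map] using h
    | ord a => exact a.elim
    | pr s t => simp [Tr.ofCode, Tr.map] at h
  | ord a => exact a.elim
  | pr s t ihs iht =>
    cases d with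
    | nat m => simp [Tr.ofCode, Tr.map] at h
    | ord a => exact a.elim
    | pr s' t' =>
      simp only [Tr.ofCode, Tr.map, Tr.pr.injEq] at h
      rw [ihs h.1, iht h.2]

theorem tcl_of_leaves {a : O} {Q : Code → T → Prop} {A : Set O} (t : T)
    (h : ∀ x ∈ t.leaves, x ∈ A ∧ x < a) : TCl a Q A t := by
  induction t with
  | nat n => exact .nat n
  | ord x => exact .base (h x rfl).1 (h x rfl).2
  | pr s t ihs iht => exact .pr (ihs fun x hx => h x (Or.inl hx)) (iht fun x hx => h x (Or.inr hx))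

/-- the term that shuffles the arguments -/
def sh : Code := .pr (.nat 2) (.pr
  (.pr (.nat 2) (.pr (.pr (.nat 0) (.pr (.nat 1) (.nat 0))) (.pr (.nat 0) (.nat 0))))
  (.pr (.nat 1) (.pr (.nat 1) (.nat 0))))

theorem thm (hTDC : G_TDC) : G_LOC := by
  intro k w β e hk hwβ _ he hsur
  obtain ⟨-, -, -, -, -, -, -, -, -, -, -, -, -, -, hT⟩ := hTDC
  obtain ⟨c, hc, hce⟩ := he
  -- the code of the graph
  obtain ⟨a₀, ha₀, hea₀⟩ := hsur w hwβ
  have h0 : Tr.pr a₀ (e a₀) ∈ dec c := by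
    rw [← hce]; exact ⟨a₀, ha₀, rfl⟩
  obtain ⟨b, φ, v, rfl, hv, -, -⟩ := h0
  have hb : b < k := hc (Or.inl rfl)
  have hdec : ∀ a ∈ D (Iio w), Tr.pr a (e a) ∈ D (Iio b) ∧ Tru b φ (.pr (.pr a (e a)) v) := by
    intro a ha
    have h1 : Tr.pr a (e a) ∈ dec (.pr (.ord b) (.pr (Tr.ofCode φ) v)) := by
      rw [← hce]; exact ⟨a, ha, rfl⟩
    obtain ⟨b', φ', v', h2, h3, h4, h5⟩ := h1
    simp only [Tr.pr.injEq, Tr.ord.injEq] at h2
    obtain ⟨rfl, h6, rfl⟩ := h2
    rw [ofCode_inj h6]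
    exact ⟨h4, h5⟩
  have hdec' : ∀ a y : T, Tr.pr a y ∈ D (Iio b) → Tru b φ (.pr (.pr a y) v) → y = e a := by
    intro a y h1 h2
    have h3 : Tr.pr a y ∈ dec (.pr (.ord b) (.pr (Tr.ofCode φ) v)) := ⟨b, φ, v, rfl, hv, h1, h2⟩
    rw [← hce] at h3
    obtain ⟨a', _, h4⟩ := h3
    simp only [Tr.pr.injEq] at h4
    rw [h4.2, h4.1]
  have hwb : w ≤ b := by
    by_contra hlt
    rw [not_le] at hlt
    have h1 := (hdec (.ord b) (by rintro x rfl; exact hlt)).1
    have h2 : b ∈ Iio b := h1 (Or.inl rfl)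
    exact lt_irrefl b (mem_Iio.1 h2)
  -- the shuffled code
  obtain ⟨χ, hχ⟩ := hT φ (fun e => .pr (.pr e.snd.fst e.fst) e.snd.snd) ⟨sh, fun e => rfl⟩
  refine ⟨Order.succ b, hk.succ_lt hb, .pr v (.ord b), ?_, hwb.trans (Order.le_succ b), ?_⟩
  · rintro x (hx | rfl)
    · exact lt_trans (hv hx) (Order.lt_succ b)
    · exact mem_Iio.2 (Order.lt_succ _)
  · intro x hx
    obtain ⟨a, ha, hea⟩ := hsur x hx
    obtain ⟨h1, h2⟩ := hdec a ha
    rw [hea] at h1 h2
    have hab : a ∈ D (Iio b) := fun z hz => h1 (Or.inl hz)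
    have hav : Tr.pr a v ∈ D (Iio b) := by
      rintro z (hz | hz)
      · exact hab hz
      · exact hv hz
    have hxb : (Tr.ord x : T) ∈ D (Iio b) := fun z hz => h1 (Or.inr hz)
    have key : ∀ y ∈ D (Iio b), (Tru b χ (.pr y (.pr a v)) ↔ Tru b φ (.pr (.pr a y) v)) := by
      intro y hy
      refine hχ b (.pr y (.pr a v)) ?_
      rintro z (hz | hz)
      · exact hy hz
      · exact hav hz
    refine TCl.inner (b := b) (φ := χ) (e := .pr a v) (x := .ord x) ?_ (Order.lt_succ b) ?_ hav ?_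
    · exact tcl_of_leaves _ (by
        rintro z rfl
        exact ⟨Or.inr (Or.inr rfl), Order.lt_succ _⟩)
    · refine tcl_of_leaves _ ?_
      rintro z (hz | hz)
      · exact ⟨Or.inl (ha hz), lt_of_lt_of_le (ha hz) (hwb.trans (Order.le_succ b))⟩
      · exact ⟨Or.inr (Or.inl hz), lt_trans (hv hz) (Order.lt_succ b)⟩
    · refine ⟨hxb, (key _ hxb).2 h2, fun y hy h3 h4 => ?_⟩
      have h5 := hdec' a y (by
        rintro z (hz | hz)
        · exact hab hz
        · exact hy hz) ((key y hy).1 h3)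
      rw [h5, hea] at h4
      exact lt_irrefl x h4

end Pool.Agent.Helper17.OD.PkLOC
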