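import Pool.Agent.Helper17.OD.GoalsCV

/-! Packet TSY: transport of the system. -/

namespace Pool.Agent.Helper17.OD.PkTSY

open Pool.Agent.Helper17.OD Set

variable {k : O} {S S' : Set (Set T)}

/-- the order of mice, in terms of trees -/
def mleT (M M' : T) : Prop :=
  ¬ M'.fst.llt M.fst ∧ (M.snd.fst.fst.lt M'.snd.fst.fst ∨
    (M.snd.fst.fst = M'.snd.fst.fst ∧ ¬ M'.snd.fst.snd.lt M.snd.fst.snd)) ∧
    ¬ M'.snd.snd.fst.llt M.snd.snd.fst

theorem tdef_lt : TDef (fun _ e => (e : T).fst.lt e.snd) := by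
  refine ⟨.pr (.nat 1) (.pr (.pr (.nat 0) (.nat 0)) (.pr (.nat 1) (.nat 0))), fun a e _ => ?_⟩
  rw [tru_eq]
  rfl

theorem sd_mle [hS : SOM k S S'] (hlt : SD k S S' (fun e _ => e.fst.lt e.snd)) :
    SD k S S' (fun e _ => mleT e.fst e.snd) := by
  unfold mleT
  iterate 3 all_goals try apply_rules [SD.llt, SD.eq, SD.not, SD.and, SD.or, ST.id, ST.fst, ST.snd, SD.app2 hlt]

attribute [local irreducible] mleT in
theorem sd_rl [hS : SOM k S S'] {G : Set T} (hG : G ∈ S')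
    (hm : SD k S S' (fun e _ => mleT e.fst e.snd))
    (hPJ : SD k S S' (fun e _ => PJ e.fst e.snd.fst e.snd.snd.fst e.snd.snd.snd)) :
    SD k S S' (fun e _ => ∃ N ∈ D (Iio k), ∃ N' ∈ D (Iio k), ∃ M'' ∈ D (Iio k),
      ∃ N'' ∈ D (Iio k), ∃ y ∈ D (Iio k), ∃ y' ∈ D (Iio k),
      (e = .pr (.pr e.fst.fst e.fst.snd) (.pr e.snd.fst e.snd.snd)) ∧
      Tr.pr e.fst.fst N ∈ G ∧ Tr.pr e.snd.fst N' ∈ G ∧ Tr.pr M'' N'' ∈ G ∧
      e.fst.snd.IsOrd ∧ e.snd.snd.IsOrd ∧ y.IsOrd ∧ y'.IsOrd ∧ e.fst.snd.llt N.fst ∧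
      e.snd.snd.llt N'.fst ∧ mleT e.fst.fst M'' ∧ mleT e.snd.fst M'' ∧
      PJ N N'' e.fst.snd y ∧ PJ N' N'' e.snd.snd y' ∧ y.llt y') := by
  iterate 12 all_goals try apply_rules [SD.exT, SD.isOrd, SD.llt, SD.mem, SD.eq, SD.and,
    ST.id, ST.fst, ST.snd, ST.pr, SV.par, SD.app2 hm, SD.app4 hPJ]

theorem map_mem {a : O} {f : O → O} {b : O} (h : ∀ x < a, f x < b) {t : T} (ht : t ∈ D (Iio a)) :
    t.map f ∈ D (Iio b) := by
  induction t with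
  | nat n => exact nat_mem _ _
  | ord x => exact ord_mem.2 (h x (ord_mem.1 ht))
  | pr s t hs ht' => exact pr_mem.2 ⟨hs (pr_mem.1 ht).1, ht' (pr_mem.1 ht).2⟩

theorem mapR_iff {β : O} {π : O → O} (t t' : T) :
    MapR {p : T | ∃ x < β, p = .pr (.ord x) (.ord (π x))} t t' ↔
      t ∈ D (Iio β) ∧ t' = t.map π := by
  induction t generalizing t' with
  | nat n =>
    simp only [MapR, Tr.map]
    exact ⟨fun h => ⟨nat_mem _ _, h⟩, fun h => h.2⟩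
  | ord x =>
    simp only [MapR, Tr.map]
    constructor
    · rintro ⟨-, y, hy, h⟩
      simp only [Tr.pr.injEq, Tr.ord.injEq] at h
      obtain ⟨rfl, rfl⟩ := h
      exact ⟨ord_mem.2 hy, rfl⟩
    · rintro ⟨h, rfl⟩
      exact ⟨trivial, x, ord_mem.1 h, rfl⟩
  | pr s t hs ht =>
    simp only [MapR, Tr.map]
    constructor
    · rintro ⟨s', t'', rfl, h1, h2⟩
      rw [hs] at h1
      rw [ht] at h2
      exact ⟨pr_mem.2 ⟨h1.1, h2.1⟩, by rw [h1.2, h2.2]⟩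
    · rintro ⟨h, rfl⟩
      exact ⟨_, _, rfl, (hs _).2 ⟨(pr_mem.1 h).1, rfl⟩, (ht _).2 ⟨(pr_mem.1 h).2, rfl⟩⟩

theorem sd_gr [hS : SOM k S S'] {G F : Set T} (hG : G ∈ S') (hF : F ∈ S')
    (hM : SD k S S' (fun e σ => MapR (σ 0) e.fst e.snd)) :
    SD k S S' (fun e _ => e = .pr e.fst e.snd ∧ ∃ n ∈ D (Iio k), Tr.pr e.fst n ∈ G ∧
      MapR F n e.snd) := by
  have h1 : SD k S S' (fun e _ => MapR F e.fst e.snd) :=
    SD.appS1 (R := fun e X => MapR X e.fst e.snd) (t := fun e => e) hM ST.id (SV.par hF)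
  iterate 3 all_goals try apply_rules [SD.app2 h1, SD.exT, SD.mem, SD.eq, SD.and, ST.id, ST.fst,
    ST.snd, ST.pr, SV.par]

/-- mice in trees -/
theorem mle_iff {a a' d d' : O} {φ u p φ' u' p' : T} :
    mle (mouse a φ u d p) (mouse a' φ' u' d' p') ↔
      mleT (mouse a φ u d p) (mouse a' φ' u' d' p') := by
  unfold mle mleT
  simp only [mouse, mA, mQ, mD, Tr.fst, Tr.snd, lev, Tr.llt, not_lt]

theorem map_ofCode (f : O → O) (c : Code) : (Tr.ofCode c : T).map f = Tr.ofCode c := by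
  induction c with
  | nat n => rfl
  | ord a => exact a.elim
  | pr s t hs ht =>
    show Tr.pr ((Tr.ofCode s : T).map f) ((Tr.ofCode t : T).map f) = _
    rw [hs, ht]
    rfl

theorem ofCode_mem (c : Code) (A : Set O) : (Tr.ofCode c : T) ∈ D A := by
  induction c with
  | nat n => exact nat_mem _ _
  | ord a => exact a.elim
  | pr s t hs ht => exact pr_mem.2 ⟨hs, ht⟩

theorem isOrd_elim {t : T} (h : t.IsOrd) : ∃ x, t = .ord x := by
  cases t with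
  | nat n => exact h.elim
  | ord x => exact ⟨x, rfl⟩
  | pr s t => exact h.elim

theorem thm (hQRT : G_QRT) (hPJT : G_PJT) (hTRD : G_TRD) (hMPR : G_MPR) (hDEC : G_DEC) :
    G_TSY := by
  intro k w τ β S S' val π I p₀ d₀ f m hS hCon hτ hH hF hI hcl hgm him hcomp
  have := hS
  have t1 : TT (fun e => e.fst) := ⟨.pr (.nat 0) (.nat 0), fun _ => rfl⟩
  have t2 : TT (fun e => e.snd) := ⟨.pr (.nat 1) (.nat 0), fun _ => rfl⟩
  have t3 : TT (fun e => e.snd.fst) := ⟨.pr (.nat 0) (.pr (.nat 1) (.nat 0)), fun _ => rfl⟩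
  have t4 : TT (fun e => e.snd.snd) := ⟨.pr (.nat 1) (.pr (.nat 1) (.nat 0)), fun _ => rfl⟩
  have t5 : TT (fun e => e.snd.snd.fst) :=
    ⟨.pr (.nat 0) (.pr (.nat 1) (.pr (.nat 1) (.nat 0))), fun _ => rfl⟩
  have t6 : TT (fun e => e.snd.snd.snd) :=
    ⟨.pr (.nat 1) (.pr (.nat 1) (.pr (.nat 1) (.nat 0))), fun _ => rfl⟩
  -- the collapsed mice
  have hmt : ∀ M ∈ I, ∃ (a : O) (φ : Code) (u : T) (d : O) (p : T),
      m M = mouse a (Tr.ofCode φ) u d p ∧ (mQ M).fst = Tr.ofCode φ ∧ d ≤ a ∧ u ∈ D (Iio a) ∧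
      p ∈ D (Iio a) ∧ a < β ∧ m M ∈ D (Iio β) ∧
      (m M).map π = mouse (π a) (Tr.ofCode φ) (u.map π) (π d) (p.map π) := by
    intro M hM
    obtain ⟨a, φ, u, d, p, h1, h2, -, h4, h5, h6, h7, -⟩ := hcl.ms M hM
    refine ⟨a, φ, u, d, p, h1, h2, h4, h5, h6, h7, ?_, ?_⟩
    · rw [h1]
      exact pr_mem.2 ⟨ord_mem.2 h7, pr_mem.2 ⟨pr_mem.2 ⟨ofCode_mem _ _,
        D_mono (Iio_subset_Iio h7.le) h5⟩, pr_mem.2 ⟨ord_mem.2 (lt_of_le_of_lt h4 h7),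
        D_mono (Iio_subset_Iio h7.le) h6⟩⟩⟩
    · rw [h1]
      simp only [mouse, Tr.map, map_ofCode]
  have hπk : ∀ t ∈ D (Iio β), t.map π ∈ D (Iio τ) := fun t ht => map_mem hH.lt ht
  have hT : TSys I (fun M => (m M).map π) := by
    refine ⟨hI.ne, hI.dir, ?_, ?_, ?_⟩
    · intro M hM
      obtain ⟨a, φ, u, d, p, h1, h2, h4, h5, h6, h7, -, h8⟩ := hmt M hM
      have hlt : ∀ x < a, π x < π a := fun x hx => hH.mono (lt_trans hx h7) h7 hx
      refine ⟨π a, φ, u.map π, π d, p.map π, h8, h2, ?_, map_mem hlt h5, map_mem hlt h6⟩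
      rcases h4.lt_or_eq with h | h
      · exact (hlt d h).le
      · rw [h]
    · intro M hM M' hM' hle
      obtain ⟨a, φ, u, d, p, h1, -, -, -, -, -, h7, -⟩ := hmt M hM
      obtain ⟨a', φ', u', d', p', h1', -, -, -, -, -, h7', -⟩ := hmt M' hM'
      have h := hH.tdf (fun e => (e.fst).fst.IsOrd ∧ (e.snd).fst.IsOrd ∧ Im e.fst e.snd)
        (hQRT.2.1 (fun e => e.fst) (fun e => e.snd) t1 t2) (.pr (m M) (m M')) (pr_mem.2 ⟨h7, h7'⟩)
      refine (h.1 ⟨?_, ?_, him M hM M' hM' hle⟩).2.2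
      · show (m M).fst.IsOrd
        rw [h1]; trivial
      · show (m M').fst.IsOrd
        rw [h1']; trivial
    · intro M hM M' hM' M'' hM'' hle hle'
      obtain ⟨-, -, -, -, -, -, -, -, -, -, -, h7, -⟩ := hmt M hM
      obtain ⟨-, -, -, -, -, -, -, -, -, -, -, h7', -⟩ := hmt M' hM'
      obtain ⟨-, -, -, -, -, -, -, -, -, -, -, h7'', -⟩ := hmt M'' hM''
      have h := hH.tdf (fun e => ∀ t t' t'', PJ e.fst e.snd.fst t t' → PJ e.snd.fst e.snd.snd t' t'' →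
        PJ e.fst e.snd.snd t t'')
        (hQRT.2.2 (fun e => e.fst) (fun e => e.snd.fst) (fun e => e.snd.snd) t1 t3 t4)
        (.pr (m M) (.pr (m M') (m M''))) (pr_mem.2 ⟨h7, pr_mem.2 ⟨h7', h7''⟩⟩)
      exact h.1 (hcomp M hM M' hM' M'' hM'' hle hle')
  -- bounds
  obtain ⟨d₁, hd₁, hI₁⟩ := hCon.bdd I hI.con
  have hdk : max d₁ τ < k := max_lt hd₁ hτ
  have hG : gr I m ∈ S' := (hDEC k S S' hS).2.1 hgm
  obtain ⟨d₂, hd₂, hG₂⟩ := hS.bdd _ (hS.sub hG)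
  have hmk : ∀ M ∈ I, m M ∈ D (Iio k) := fun M hM =>
    D_mono (Iio_subset_Iio hd₂.le) (pr_mem.1 (hG₂ ⟨M, hM, rfl⟩)).2
  have hIk : ∀ M ∈ I, M ∈ D (Iio k) := fun M hM => D_mono (Iio_subset_Iio hd₁.le) (hI₁ hM)
  have hmtτ : ∀ M ∈ I, (m M).map π ∈ D (Iio τ) := by
    intro M hM
    obtain ⟨-, -, -, -, -, -, -, -, -, -, -, h7, -⟩ := hmt M hM
    exact hπk _ h7
  have hmtk : ∀ M ∈ I, (m M).map π ∈ D (Iio k) := fun M hM =>
    D_mono (Iio_subset_Iio hτ.le) (hmtτ M hM)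
  have hG' : gr I (fun M => (m M).map π) ∈ S' := by
    refine SOM.of_SD hdk ?_ ((sd_gr hG hF (hMPR k S S' hS)).congr fun e _ _ _ => ?_)
    · rintro _ ⟨M, hM, rfl⟩
      exact pr_mem.2 ⟨D_mono (Iio_subset_Iio (le_max_left _ _)) (hI₁ hM),
        D_mono (Iio_subset_Iio (le_max_right _ _)) (hmtτ M hM)⟩
    · constructor
      · rintro ⟨h1, n, -, ⟨M, hM, h2⟩, h3⟩
        simp only [Tr.pr.injEq] at h2
        obtain ⟨h4, h5⟩ := (mapR_iff _ _).1 h3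
        refine ⟨M, hM, ?_⟩
        rw [h1, h2.1, h5, h2.2]
      · rintro ⟨M, hM, rfl⟩
        obtain ⟨-, -, -, -, -, -, -, -, -, -, -, h7, -⟩ := hmt M hM
        exact ⟨rfl, m M, hmk M hM, ⟨M, hM, rfl⟩, (mapR_iff _ _).2 ⟨h7, rfl⟩⟩
  refine ⟨hT, hG', ?_⟩
  -- levels of the transported mice
  have hA : ∀ M ∈ I, ∃ a : O, ((m M).map π).fst = .ord a ∧ mA ((m M).map π) = a ∧ a < τ := by
    intro M hM
    obtain ⟨a, φ, u, d, p, h1, h2, h4, h5, h6, h7, -, h8⟩ := hmt M hM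
    rw [h8]
    exact ⟨π a, rfl, rfl, hH.lt a h7⟩
  have hml : ∀ M ∈ I, ∀ M' ∈ I, (mle M M' ↔ mleT M M') := by
    intro M hM M' hM'
    obtain ⟨a, φ, u, d, rfl, -⟩ := hI.mice M hM
    obtain ⟨a', φ', u', d', rfl, -⟩ := hI.mice M' hM'
    exact mle_iff
  have hlt : SD k S S' (fun e _ => e.fst.lt e.snd) := (hTRD k S S' hS).2.2 _ tdef_lt
  have hPJ : SD k S S' (fun e _ => PJ e.fst e.snd.fst e.snd.snd.fst e.snd.snd.snd) :=
    (hTRD k S S' hS).2.2 (fun e => PJ e.fst e.snd.fst e.snd.snd.fst e.snd.snd.snd)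
      (hPJT (fun e => e.fst) (fun e => e.snd.fst) (fun e => e.snd.snd.fst)
        (fun e => e.snd.snd.snd) t1 t3 t5 t6)
  refine SOM.of_SD hdk ?_ ((sd_rl hG' (sd_mle hlt) hPJ).congr fun e _ _ _ => ?_)
  · rintro _ ⟨M, hM, M', hM', x, x', hx, hx', rfl, -⟩
    obtain ⟨a, -, ha, haτ⟩ := hA M hM
    obtain ⟨a', -, ha', haτ'⟩ := hA M' hM'
    have hx2 : x < mA ((m M).map π) := hx
    have hx2' : x' < mA ((m M').map π) := hx'
    rw [ha] at hx2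
    rw [ha'] at hx2'
    exact pr_mem.2 ⟨pr_mem.2 ⟨D_mono (Iio_subset_Iio (le_max_left _ _)) (hI₁ hM),
      ord_mem.2 (lt_of_lt_of_le (lt_trans hx2 haτ) (le_max_right _ _))⟩,
      pr_mem.2 ⟨D_mono (Iio_subset_Iio (le_max_left _ _)) (hI₁ hM'),
      ord_mem.2 (lt_of_lt_of_le (lt_trans hx2' haτ') (le_max_right _ _))⟩⟩
  · constructor
    · rintro ⟨N, -, N', -, M'', -, N'', -, y, -, y', -, he, ⟨M, hM, hMN⟩, ⟨M', hM', hMN'⟩,
        ⟨M₂, hM₂, hMN''⟩, ho1, ho2, hy, hy', hx, hx', hm1, hm2, hp1, hp2, hyy⟩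
      simp only [Tr.pr.injEq] at hMN hMN' hMN''
      obtain ⟨x, hxx⟩ := isOrd_elim ho1
      obtain ⟨x', hxx'⟩ := isOrd_elim ho2
      obtain ⟨y, rfl⟩ := isOrd_elim hy
      obtain ⟨y', rfl⟩ := isOrd_elim hy'
      obtain ⟨rfl, rfl⟩ := hMN''
      obtain ⟨hM1, rfl⟩ := hMN
      obtain ⟨hM1', rfl⟩ := hMN'
      rw [hM1] at hm1
      rw [hM1'] at hm2
      rw [hxx] at hx hp1
      rw [hxx'] at hx' hp2
      obtain ⟨a, ha1, ha, -⟩ := hA M hM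
      obtain ⟨a', ha1', ha', -⟩ := hA M' hM'
      rw [ha1] at hx
      rw [ha1'] at hx'
      refine ⟨M, hM, M', hM', x, x', ?_, ?_, ?_, M'', hM₂, (hml M hM M'' hM₂).2 hm1,
        (hml M' hM' M'' hM₂).2 hm2, y, y', hp1, hp2, hyy⟩
      · show x < mA ((m M).map π)
        rw [ha]; exact hx
      · show x' < mA ((m M').map π)
        rw [ha']; exact hx'
      · rw [he, hM1, hM1', hxx, hxx']
    · rintro ⟨M, hM, M', hM', x, x', hx, hx', rfl, M'', hM'', h1, h2, y, y', h3, h4, h5⟩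
      obtain ⟨a, ha1, ha, haτ⟩ := hA M hM
      obtain ⟨a', ha1', ha', haτ'⟩ := hA M' hM'
      obtain ⟨a'', ha1'', ha'', haτ''⟩ := hA M'' hM''
      have hy : (Tr.ord y : T) ∈ D (Iio k) := by
        have := ((hT.im M hM M'' hM'' h1).dom _ _ h3).2
        refine D_mono (Iio_subset_Iio ?_) this
        show mA ((m M'').map π) ≤ k
        rw [ha'']; exact (lt_trans haτ'' hτ).le
      have hy' : (Tr.ord y' : T) ∈ D (Iio k) := by
        have := ((hT.im M' hM' M'' hM'' h2).dom _ _ h4).2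
        refine D_mono (Iio_subset_Iio ?_) this
        show mA ((m M'').map π) ≤ k
        rw [ha'']; exact (lt_trans haτ'' hτ).le
      have hx2 : x < mA ((m M).map π) := hx
      have hx2' : x' < mA ((m M').map π) := hx'
      rw [ha] at hx2
      rw [ha'] at hx2'
      refine ⟨(m M).map π, hmtk M hM, (m M').map π, hmtk M' hM', M'', hIk M'' hM'',
        (m M'').map π, hmtk M'' hM'', .ord y, hy, .ord y', hy', rfl, ⟨M, hM, rfl⟩, ⟨M', hM', rfl⟩,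
        ⟨M'', hM'', rfl⟩, trivial, trivial, trivial, trivial, ?_, ?_, (hml M hM M'' hM'').1 h1,
        (hml M' hM' M'' hM'').1 h2, h3, h4, h5⟩
      · show (Tr.ord x).llt ((m M).map π).fst
        rw [ha1]; exact hx2
      · show (Tr.ord x').llt ((m M').map π).fst
        rw [ha1']; exact hx2'

end Pool.Agent.Helper17.OD.PkTSY
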